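import Mathlib

set_option autoImplicit false

namespace Pool.Agent.Results.MP_83f734_co.AllFields

/-- `Δ_5 = {0, e_1, ..., e_5}` in `ℤ^5`. -/
def Delta5 : Set (Fin 5 → ℤ) := {x | x = 0 ∨ ∃ k, x = Pi.single k 1}

/-- There is a system of `m` linear inequalities `A x ≤ b` with all entries in `F` whose integer
solutions are exactly the points of `X`. -/
def HasRelaxation (F : IntermediateField ℚ ℝ) (X : Set (Fin 5 → ℤ)) (m : ℕ) : Prop :=
  ∃ (A : Fin m → Fin 5 → ℝ) (b : Fin m → ℝ), (∀ i j, A i j ∈ F) ∧ (∀ i, b i ∈ F) ∧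
    ∀ x : Fin 5 → ℤ, (∀ i, ∑ j, A i j * (x j : ℝ) ≤ b i) ↔ x ∈ X

lemma irr_zero (a : ℝ) (ha : Irrational a) (p q : ℤ) (h : (p : ℝ) + a * q = 0) :
    p = 0 ∧ q = 0 := by
  by_cases hq : q = 0
  · subst hq
    simp at h
    exact ⟨h, rfl⟩
  · exfalso
    have h1 : Irrational ((p : ℝ) + a * q) := (ha.mul_intCast hq).intCast_add p
    rw [h] at h1
    exact h1 ⟨0, by simp⟩

lemma core (a : ℝ) (ha : Irrational a) (h0 : 0 < a) (h1 : a < 1) (x0 x1 x2 x3 x4 : ℤ)
    (I1 : -(x3 : ℝ) - a * x4 ≤ 0)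
    (I2 : (x0 : ℝ) + a * x1 + x2 + x3 + x4 ≤ 1)
    (I3 : -(x0 : ℝ) - 2 * x1 + (a - 2) * x4 ≤ 0)
    (I4 : -(x0 : ℝ) + x1 - a * x2 - a * x3 + x4 ≤ 1)
    (I5 : -(x2 : ℝ) + (a - 1) * x4 ≤ 0) :
    0 ≤ x0 ∧ 0 ≤ x1 ∧ 0 ≤ x2 ∧ 0 ≤ x3 ∧ 0 ≤ x4 ∧ x0 + x1 + x2 + x3 + x4 ≤ 1 := by
  obtain ⟨z1, rfl⟩ : ∃ z, x0 = z - x3 := ⟨x0 + x3, by ring⟩
  obtain ⟨z2, rfl⟩ : ∃ z, x1 = z - x4 := ⟨x1 + x4, by ring⟩
  obtain ⟨z3, rfl⟩ : ∃ z, x2 = z - x3 - x4 := ⟨x2 + x3 + x4, by ring⟩
  push_cast at I1 I2 I3 I4 I5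
  obtain ⟨s, hs⟩ : ∃ s : ℝ, s = x3 + a * x4 := ⟨_, rfl⟩
  have J1 : 0 ≤ s := by linarith
  have J2 : (z1 : ℝ) + a * z2 + z3 - 1 ≤ s := by linarith
  have J3 : s ≤ z1 + 2 * z2 := by linarith
  have J4 : s ≤ a * z3 - z2 + 1 + z1 := by linarith
  have J5 : s ≤ z3 := by linarith
  have k3 : 0 ≤ z3 := by
    have : (0 : ℝ) ≤ z3 := by linarith
    exact_mod_cast this
  have k3' : (0 : ℝ) ≤ z3 := by exact_mod_cast k3
  have k2 : 0 ≤ z2 := by
    by_contra h
    have : (z2 : ℝ) ≤ -1 := by exact_mod_cast (show z2 ≤ -1 by omega)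
    nlinarith
  have k2u : z2 ≤ 1 := by
    by_contra h
    have : (2 : ℝ) ≤ z2 := by exact_mod_cast (show 2 ≤ z2 by omega)
    nlinarith
  have fin : ∀ p q : ℤ, s = p + a * q → x3 = p ∧ x4 = q := by
    intro p q h
    have := irr_zero a ha (x3 - p) (x4 - q) (by push_cast; linarith)
    omega
  have : z2 = 0 ∨ z2 = 1 := by omega
  rcases this with rfl | rfl
  · push_cast at J2 J3 J4
    have a1 : 0 ≤ z1 := by
      have : (0 : ℝ) ≤ z1 := by linarith
      exact_mod_cast this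
    have a2 : z1 ≤ 1 := by
      have : (z1 : ℝ) ≤ 1 := by linarith
      exact_mod_cast this
    have a3 : z3 ≤ 1 := by
      have : (z3 : ℝ) ≤ 1 := by linarith
      exact_mod_cast this
    have b1 : z1 = 0 ∨ z1 = 1 := by omega
    have b3 : z3 = 0 ∨ z3 = 1 := by omega
    rcases b1 with rfl | rfl <;> rcases b3 with rfl | rfl <;> push_cast at J2 J3 J4 J5
    · have := fin 0 0 (by push_cast; linarith); omega
    · have := fin 0 0 (by push_cast; linarith); omega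
    · have := fin 0 0 (by push_cast; linarith); omega
    · have := fin 1 0 (by push_cast; linarith); omega
  · push_cast at J2 J3 J4
    have a2 : z1 ≤ 0 := by
      have : (z1 : ℝ) < 1 := by linarith
      have : z1 < 1 := by exact_mod_cast this
      omega
    have a3 : z3 ≤ 1 := by
      by_contra h
      have : (2 : ℝ) ≤ z3 := by exact_mod_cast (show 2 ≤ z3 by omega)
      nlinarith
    have b3 : z3 = 0 ∨ z3 = 1 := by omega
    have a1 : 0 ≤ z1 := by
      have : (-1 : ℝ) < z1 := by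
        rcases b3 with rfl | rfl <;> push_cast at J4 <;> linarith
      have : -1 < z1 := by exact_mod_cast this
      omega
    have b1 : z1 = 0 := by omega
    subst b1
    rcases b3 with rfl | rfl <;> push_cast at J2 J3 J4 J5
    · have := fin 0 0 (by push_cast; linarith); omega
    · have := fin 0 1 (by push_cast; linarith); omega

lemma mem_of (x : Fin 5 → ℤ) (h : 0 ≤ x 0 ∧ 0 ≤ x 1 ∧ 0 ≤ x 2 ∧ 0 ≤ x 3 ∧ 0 ≤ x 4 ∧
    x 0 + x 1 + x 2 + x 3 + x 4 ≤ 1) : x ∈ Delta5 := by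
  obtain ⟨h0, h1, h2, h3, h4, h5⟩ := h
  by_cases c0 : x 0 = 1
  · right; refine ⟨0, ?_⟩; ext i; fin_cases i <;> simp <;> omega
  by_cases c1 : x 1 = 1
  · right; refine ⟨1, ?_⟩; ext i; fin_cases i <;> simp <;> omega
  by_cases c2 : x 2 = 1
  · right; refine ⟨2, ?_⟩; ext i; fin_cases i <;> simp <;> omega
  by_cases c3 : x 3 = 1
  · right; refine ⟨3, ?_⟩; ext i; fin_cases i <;> simp <;> omega
  by_cases c4 : x 4 = 1
  · right; refine ⟨4, ?_⟩; ext i; fin_cases i <;> simp <;> omega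
  left; ext i; fin_cases i <;> simp <;> omega

lemma main (F : IntermediateField ℚ ℝ) (hF : F ≠ ⊥) : HasRelaxation F Delta5 5 := by
  obtain ⟨β, hβ, hirr⟩ : ∃ β ∈ F, Irrational β := by
    by_contra h
    apply hF
    rw [eq_bot_iff]
    intro y hy
    have : ¬ Irrational y := fun hi => h ⟨y, hy, hi⟩
    unfold Irrational at this
    obtain ⟨q, hq⟩ := not_not.1 this
    exact IntermediateField.mem_bot.2 ⟨q, hq⟩
  have hZ : ∀ n : ℤ, (n : ℝ) ∈ F := fun n => intCast_mem F n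
  obtain ⟨a, haF, ha, h0, h1⟩ : ∃ a ∈ F, Irrational a ∧ 0 < a ∧ a < 1 := by
    have hi : Irrational (β - ⌊β⌋) := hirr.sub_intCast _
    refine ⟨β - ⌊β⌋, F.sub_mem hβ (hZ _), hi, ?_, ?_⟩
    · have h2 : 0 ≤ β - ⌊β⌋ := by linarith [Int.floor_le β]
      rcases h2.lt_or_eq with h | h
      · exact h
      · rw [← h] at hi; exact absurd ⟨0, by simp⟩ hi
    · linarith [Int.lt_floor_add_one β]
  have m0 : (0 : ℝ) ∈ F := F.zero_mem
  have m1 : (1 : ℝ) ∈ F := F.one_mem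
  have m2 : (2 : ℝ) ∈ F := by exact_mod_cast hZ 2
  refine ⟨![![0, 0, 0, -1, -a], ![1, a, 1, 1, 1], ![-1, -2, 0, 0, a - 2], ![-1, 1, -a, -a, 1],
    ![0, 0, -1, 0, a - 1]], ![0, 1, 0, 1, 0], ?_, ?_, ?_⟩
  · have n1 := F.neg_mem m1
    have n2 := F.neg_mem m2
    have n3 := F.neg_mem haF
    have n4 := F.sub_mem haF m2
    have n5 := F.sub_mem haF m1
    intro i j
    fin_cases i <;> fin_cases j <;> assumption
  · intro i
    fin_cases i <;> assumption
  · intro x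
    constructor
    · intro h
      have I1 := h 0
      have I2 := h 1
      have I3 := h 2
      have I4 := h 3
      have I5 := h 4
      simp [Fin.sum_univ_five] at I1 I2 I3 I4 I5
      exact mem_of x (core a ha h0 h1 (x 0) (x 1) (x 2) (x 3) (x 4) (by linarith) (by linarith)
        (by linarith) (by linarith) (by linarith))
    · rintro (rfl | ⟨k, rfl⟩)
      · intro i
        fin_cases i <;> simp
      · intro i
        fin_cases i <;> fin_cases k <;> simp [Fin.sum_univ_five] <;> linarith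

/-- Every subfield `F ≠ ℚ` of the reals, in particular every real quadratic field, admits a
relaxation of `Δ_5` by five inequalities with coefficients in `F`. -/
theorem result (F : IntermediateField ℚ ℝ) :
    (F ≠ ⊥ → HasRelaxation F Delta5 5) ∧ (Module.finrank ℚ F = 2 → HasRelaxation F Delta5 5) := by
  refine ⟨main F, fun h => main F ?_⟩
  intro hb
  have := IntermediateField.finrank_eq_one_iff.2 hb
  omega

end Pool.Agent.Results.MP_83f734_co.AllFields
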